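import Pool.Agent.P.MP_833722_gt.Main

/-! Expansion of a positive braid by the set of generators that are smoothed horizontally. -/

set_option autoImplicit false

namespace Pool.Agent.P.MP_833722_gt.Pos

open Finset

variable {R M : Type} [CommRing R] [AddCommGroup M] [Module R M]

/-- sum over the states in which every generator of `K` is smoothed horizontally at least once -/
def Y (E : ℕ → Module.End R M) (x : R) : List ℕ → Finset ℕ → Module.End R M
  | [], K => if K = ∅ then 1 else 0
  | i :: w, K => Y E x w K + x • (Y E x w (K.erase i) * E i)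

theorem Y_congr {E E' : ℕ → Module.End R M} (x : R) : ∀ (w : List ℕ) (K : Finset ℕ),
    (∀ i ∈ w, E i = E' i) → Y E x w K = Y E' x w K
  | [], _, _ => rfl
  | i :: w, K, h => by
    have h' : ∀ j ∈ w, E j = E' j := fun j hj => h j (List.mem_cons_of_mem _ hj)
    rw [Y, Y, Y_congr x w _ h', Y_congr x w _ h', h i List.mem_cons_self]

variable (E : ℕ → Module.End R M) (x : R)

theorem Y_tele (i : ℕ) : ∀ (w : List ℕ) (K : Finset ℕ), i ∉ K →
    Y E x w K = Y E x w (insert i K) + Y E x (w.filter (· ≠ i)) K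
  | [], K, _ => by simp [Y]
  | j :: w, K, h => by
    by_cases e : j = i
    · subst e
      rw [List.filter_cons_of_neg (by simp), Y, Y, erase_insert h, erase_eq_of_notMem h,
        add_right_comm, ← Y_tele j w K h]
    · rw [List.filter_cons_of_pos (by simpa using e), Y, Y, Y, erase_insert_of_ne (Ne.symm e),
        Y_tele i w K h, Y_tele i w (K.erase j) fun k => h (mem_of_mem_erase k), add_mul, smul_add]
      abel

theorem Y_comm {F : Module.End R M} : ∀ (w : List ℕ) (K : Finset ℕ),
    (∀ i ∈ w, F * E i = E i * F) → F * Y E x w K = Y E x w K * F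
  | [], K, _ => by rw [Y]; split_ifs <;> simp
  | i :: w, K, h => by
    have h' : ∀ j ∈ w, F * E j = E j * F := fun j hj => h j (List.mem_cons_of_mem _ hj)
    rw [Y, mul_add, add_mul, mul_smul_comm, smul_mul_assoc, ← mul_assoc, Y_comm w _ h',
      Y_comm w _ h', mul_assoc, h i List.mem_cons_self, mul_assoc]

theorem Y_split (hE : ∀ a c, a + 2 ≤ c → E a * E c = E c * E a) (j : ℕ) :
    ∀ (w : List ℕ) (K : Finset ℕ), (∀ i ∈ K, j ≤ i) → (∀ i ∈ w, i + 2 ≤ j ∨ j ≤ i) →
    Y E x w K = Y E x (w.filter (· < j)) ∅ * Y E x (w.filter (j ≤ ·)) K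
  | [], K, _, _ => by simp [Y]
  | i :: w, K, hK, h => by
    have h' : ∀ k ∈ w, k + 2 ≤ j ∨ j ≤ k := fun k hk => h k (List.mem_cons_of_mem _ hk)
    rcases h i List.mem_cons_self with e | e
    · rw [List.filter_cons_of_pos (by simp; omega), List.filter_cons_of_neg (by simp; omega), Y, Y,
        erase_empty, erase_eq_of_notMem fun k => by have := hK i k; omega, Y_split hE j w K hK h',
        add_mul, smul_mul_assoc, mul_assoc, mul_assoc, Y_comm E x _ K fun k hk => hE i k (by
          have := (List.mem_filter.1 hk).2; simp at this; omega)]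
    · rw [List.filter_cons_of_neg (by simp; omega), List.filter_cons_of_pos (by simpa using e), Y,
        Y, Y_split hE j w K hK h', Y_split hE j w (K.erase i) (fun k hk => hK k
          (mem_of_mem_erase hk)) h', mul_add, mul_smul_comm, mul_assoc]

variable {δ : R} (T : TL R M δ)

/-- horizontal smoothing -/
def ee (i : ℕ) : Module.End R M := T.cup i * T.cap i

/-- nested cups -/
def Cp (j : ℕ) : ℕ → Module.End R M
  | 0 => 1
  | m + 1 => T.cup (j + m) * Cp j m

/-- nested caps -/
def Ca (j : ℕ) : ℕ → Module.End R M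
  | 0 => 1
  | m + 1 => Ca j m * T.cap (j + m)

theorem Cp_add (j : ℕ) : ∀ m, Cp T 0 (j + m) = Cp T j m * Cp T 0 j
  | 0 => (one_mul _).symm
  | m + 1 => by rw [← add_assoc, Cp, Cp, Cp_add j m, zero_add, mul_assoc]

theorem Ca_add (j : ℕ) : ∀ m, Ca T 0 (j + m) = Ca T 0 j * Ca T j m
  | 0 => (mul_one _).symm
  | m + 1 => by rw [← add_assoc, Ca, Ca, Ca_add j m, zero_add, mul_assoc]

/-- cups commute and caps commute -/
def Far : Prop := (∀ i j v, i ≤ j → T.cup (j + 2) (T.cup i v) = T.cup i (T.cup j v)) ∧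
  ∀ i j v, i ≤ j → T.cap i (T.cap (j + 2) v) = T.cap j (T.cap i v)

variable {T}

theorem Far.cap (h : Far T) {a c : ℕ} (hc : a + 2 ≤ c) :
    (T.cap c : Module.End R M) * ee T a = ee T a * T.cap c := by
  obtain ⟨c, rfl⟩ : ∃ k, c = k + 2 := ⟨c - 2, by omega⟩
  ext v
  simp only [ee, Module.End.mul_apply]
  rw [T.c2 _ _ _ (by omega), h.2 _ _ _ (by omega)]

theorem Far.ee (h : Far T) (a c : ℕ) (hc : a + 2 ≤ c) : ee T a * ee T c = ee T c * ee T a := by
  obtain ⟨c, rfl⟩ : ∃ k, c = k + 2 := ⟨c - 2, by omega⟩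
  ext v
  simp only [Pos.ee, Module.End.mul_apply]
  rw [T.c1 _ _ _ (by omega), T.c2 _ _ _ (by omega), h.2 _ _ _ (by omega), h.1 _ _ _ (by omega)]

theorem Far.ca (h : Far T) {a j : ℕ} (hc : a + 2 ≤ j) :
    ∀ m, Ca T j m * Pos.ee T a = Pos.ee T a * Ca T j m
  | 0 => by simp [Ca]
  | m + 1 => by rw [Ca, mul_assoc, h.cap (by omega), ← mul_assoc, Far.ca h hc m, mul_assoc]

variable (T)

/-- forget the first `j` strands -/
def sh (j : ℕ) : TL R M δ where
  cup i := T.cup (j + i)
  cap i := T.cap (j + i)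
  loop _ _ := T.loop _ _
  z1 _ _ := T.z1 _ _
  z2 _ _ := T.z2 _ _
  c1 _ _ _ h := T.c1 _ _ _ (Nat.add_le_add_left h j)
  c2 _ _ _ h := T.c2 _ _ _ (Nat.add_le_add_left h j)

theorem Cp_sh (j : ℕ) : ∀ m, Cp (sh T j) 0 m = Cp T j m
  | 0 => rfl
  | m + 1 => by rw [Cp, Cp, Cp_sh j m, zero_add]; rfl

theorem Ca_sh (j : ℕ) : ∀ m, Ca (sh T j) 0 m = Ca T j m
  | 0 => rfl
  | m + 1 => by rw [Ca, Ca, Ca_sh j m, zero_add]; rfl

theorem ev_cups (A B : R) (v : M) : ∀ b,
    T.ev A B ((List.range b).map (Pc.cup · true)) v = Cp T 0 b v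
  | 0 => rfl
  | b + 1 => by
    rw [List.range_succ, List.map_append, TL.ev_append, ev_cups A B v b, Cp, zero_add]; rfl

theorem ev_caps (A B : R) : ∀ (b : ℕ) (v : M),
    T.ev A B ((List.range b).reverse.map Pc.cap) v = Ca T 0 b v
  | 0, _ => rfl
  | b + 1, v => by
    rw [List.range_succ, List.reverse_append, Ca, zero_add]
    exact ev_caps A B b _

theorem ev_word (A B c : R) (s : Bool) (h1 : (if s then A else B) = c)
    (h2 : (if s then B else A) = c * x) : ∀ (w : List ℕ) (v : M),
    T.ev A B (w.map (Pc.cr · s)) v = c ^ w.length • Y (ee T) x w ∅ v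
  | [], v => by simp [TL.ev, Y]
  | i :: w, v => by
    rw [List.map_cons, TL.ev, ev_word A B c s h1 h2 w, TL.X, h1, h2, Y, erase_empty,
      List.length_cons, pow_succ]
    simp [ee, mul_smul]

/-- position independent vertex models -/
theorem far_const (f g : Bool → R) (δ : R) (h0 h1 h2) :
    Far (hTL (fun _ => f) (fun _ => g) δ h0 h1 h2) := by
  refine ⟨fun i j v h => ?_, fun i j v h => ?_⟩
  · funext y
    have e : del2 i (del2 (j + 2) y) = del2 j (del2 i y) := by
      funext k
      simp only [del2]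
      split_ifs <;> first | rfl | (exfalso; omega)
    simp only [hTL, hcup_apply, e, del2_lt (show i < j + 2 by omega),
      del2_lt (show i + 1 < j + 2 by omega), del2_ge h, del2_ge (Nat.le_succ_of_le h)]
    split_ifs <;> ring
  · funext y
    have e : ∀ a b c d, ins2 (j + 2) a b (ins2 i c d y) = ins2 i c d (ins2 j a b y) :=
      fun a b c d => by
        funext k
        simp only [ins2]
        split_ifs <;> first | rfl | (exfalso; omega)
    simp only [hTL, hcap_apply, e, Fintype.sum_bool]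
    ring

end Pool.Agent.P.MP_833722_gt.Pos
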