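import Pool.Agent.P.MP_833722_gt.Pos.Alg

/-! Domination of the expansion by a contractive real model. -/

set_option autoImplicit false

namespace Pool.Agent.P.MP_833722_gt.Pos

open Finset

section
variable {R M : Type} [CommRing R] [AddCommGroup M] [Module R M] {δ : R} {T : TL R M δ} {v₀ : M}

theorem Far.sh (h : Far T) (j : ℕ) : Far (sh T j) :=
  ⟨fun _ _ _ e => h.1 _ _ _ (Nat.add_le_add_left e j),
    fun _ _ _ e => h.2 _ _ _ (Nat.add_le_add_left e j)⟩

theorem rep_count {l : List ℕ} {v : M} (h : T.Rep 0 v₀ l v) : ∀ z ∈ l, l.count z = 2 := by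
  induction h with
  | base l h => simp [List.length_eq_zero_iff.1 h]
  | ins a b x v _ hx ih =>
    intro z hz
    by_cases e : z = x
    · have := List.count_eq_zero_of_not_mem hx
      simp only [List.count_append] at this
      simp only [e, List.count_append, List.count_cons_self]
      omega
    · have := ih z (by simpa [e] using hz)
      simpa [List.count_cons_of_ne (Ne.symm e)] using this

theorem rep_cup (hT : Far T) {l : List ℕ} {v : M} (h : T.Rep 0 v₀ l v) :
    ∀ a x b, l = a ++ x :: x :: b → ∃ u, v = T.cup a.length u := by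
  induction h with
  | base l h => rintro a x b rfl; simp at h
  | ins a' b' z v _ hz ih =>
    intro a x b e1
    rcases List.append_eq_append_iff.1 e1 with ⟨c, rfl, e2⟩ | ⟨c, rfl, e2⟩
    · match c, e2 with
      | [], _ => exact ⟨v, by simp⟩
      | [u], e2 =>
        simp only [List.cons_append, List.nil_append, List.cons.injEq] at e2
        obtain ⟨rfl, rfl, rfl⟩ := e2
        simp at hz
      | u :: u' :: c, e2 =>
        simp only [List.cons_append, List.cons.injEq] at e2
        obtain ⟨rfl, rfl, rfl⟩ := e2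
        obtain ⟨u, rfl⟩ := ih (a' ++ c) x b (by simp)
        exact ⟨_, by rw [show (a' ++ z :: z :: c).length = (a' ++ c).length + 2 by simp; omega,
          ← hT.1 a'.length (a' ++ c).length u (by simp)]⟩
    · match c, e2 with
      | [], _ => exact ⟨v, by simp⟩
      | [u], e2 =>
        simp only [List.cons_append, List.nil_append, List.cons.injEq] at e2
        obtain ⟨rfl, rfl, rfl⟩ := e2
        simp at hz
      | u :: u' :: c, e2 =>
        simp only [List.cons_append, List.cons.injEq] at e2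
        obtain ⟨rfl, rfl, rfl⟩ := e2
        obtain ⟨u, rfl⟩ := ih a x (c ++ b') (by simp)
        exact ⟨_, by rw [show (a ++ x :: x :: c).length = (a ++ c).length + 2 by simp; omega,
          hT.1 _ _ _ (by simp)]⟩

theorem rep_eq (hT : Far T) {a b : List ℕ} {x : ℕ} {v : M} (h : T.Rep 0 v₀ (a ++ x :: x :: b) v) :
    ee T a.length v = δ • v := by
  obtain ⟨u, rfl⟩ := rep_cup hT h a x b rfl
  simp [ee, T.loop]

theorem rep_ne {a b : List ℕ} {x y f : ℕ} {v : M} (h : T.Rep 0 v₀ (a ++ x :: y :: b) v)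
    (e : x ≠ y) (hf : f ∉ a.map (ren x y) ++ b.map (ren x y)) :
    T.Rep 0 v₀ (a.map (ren x y) ++ f :: f :: b.map (ren x y)) (ee T a.length v) := by
  obtain ⟨v', h1, h2⟩ := h.cap (by omega) a x y b rfl
  have h3 := rep_count h x (by simp)
  have h4 : x ∈ a ++ b := by
    rw [← List.count_pos_iff]
    simp only [List.count_append, List.count_cons_self, List.count_cons_of_ne e.symm] at h3 ⊢
    omega
  rw [if_pos (List.mem_map.2 ⟨x, h4, by simp [ren]⟩), one_smul] at h2
  rw [List.map_append] at h1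
  simpa [ee, h2] using TL.Rep.ins _ _ f v' h1 hf

theorem rep_init (T : TL R M δ) (v₀ : M) : ∀ m,
    T.Rep 0 v₀ (List.range m ++ (List.range m).reverse) (Cp T 0 m v₀)
  | 0 => TL.Rep.base _ rfl
  | m + 1 => by
    simpa [List.range_succ, Cp] using TL.Rep.ins _ _ m _ (rep_init T v₀ m) (by simp)

end

/-- no arc joins the strands `0, ..., i` to the others -/
def Sp (m i : ℕ) (l : List ℕ) : Prop :=
  ∃ χ : ℕ → Bool, ∀ p < 2 * m, (l.map χ)[p]? = some (decide (i < p ∧ p + i + 1 < 2 * m))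

theorem sp_init (m i : ℕ) : Sp m i (List.range m ++ (List.range m).reverse) := by
  refine ⟨fun z => decide (i < z), fun p hp => ?_⟩
  rw [List.getElem?_map, List.getElem?_append]
  split_ifs with h
  · rw [List.length_range] at h
    rw [List.getElem?_range h]
    simp; omega
  · rw [List.length_range] at h ⊢
    rw [List.getElem?_reverse (by rw [List.length_range]; omega), List.length_range,
      List.getElem?_range (by omega), Option.map_some, Option.some_inj, decide_eq_decide]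
    omega

theorem Sp.val {m i : ℕ} {a b : List ℕ} {x y : ℕ} {χ : ℕ → Bool} (ha : a.length + 2 ≤ m)
    (h : ∀ p < 2 * m, ((a ++ x :: y :: b).map χ)[p]? =
      some (decide (i < p ∧ p + i + 1 < 2 * m))) : χ x = χ y ↔ a.length ≠ i := by
  have h1 := h a.length (by omega)
  have h2 := h (a.length + 1) (by omega)
  simp at h1 h2
  rw [h1, h2, Bool.eq_iff_iff]
  simp
  omega

theorem Sp.step {m i : ℕ} {a b : List ℕ} {x y f : ℕ} (h : Sp m i (a ++ x :: y :: b))
    (ha : a.length + 2 ≤ m) (hi : a.length ≠ i) (hf : f ∉ a.map (ren x y) ++ b.map (ren x y)) :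
    Sp m i (a.map (ren x y) ++ f :: f :: b.map (ren x y)) := by
  obtain ⟨χ, h⟩ := h
  have e := (Sp.val ha h).2 hi
  have k : ∀ c : List ℕ, f ∉ c.map (ren x y) →
      (c.map (ren x y)).map (Function.update χ f (χ x)) = c.map χ := fun c hc => by
    rw [List.map_map]
    refine List.map_congr_left fun z hz => ?_
    rw [Function.comp, Function.update_of_ne fun e1 : ren x y z = f =>
      hc (by rw [← e1]; exact List.mem_map_of_mem hz), ren]
    split_ifs with h1
    exacts [h1 ▸ e, rfl]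
  refine ⟨Function.update χ f (χ x), fun p hp => ?_⟩
  rw [List.mem_append, not_or] at hf
  rw [← h p hp, List.map_append, List.map_cons, List.map_cons, k a hf.1, k b hf.2,
    Function.update_self, List.map_append, List.map_cons, List.map_cons, e]

/-- the real model -/
noncomputable def T2 : TL ℝ ((ℕ → Bool) → ℝ) (-5 / 2) :=
  hTL (fun _ b => if b then 1 else -1 / 2) (fun _ b => if b then -2 else 1) _
    (fun _ => by simp; norm_num) (fun _ b => by cases b <;> norm_num)
    (fun _ b => by cases b <;> norm_num)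

theorem far_T2 : Far T2 := far_const _ _ _ _ _ _

theorem S_add {α : Type} [Fintype α] [Inhabited α] : ∀ (m : ℕ) (F G : (ℕ → α) → ℝ),
    S m (F + G) = S m F + S m G
  | 0, _, _ => rfl
  | m + 1, F, G => by
    rw [S, S, S, ← S_add m]
    congr 1
    funext x
    simp [sum_add_distrib]

theorem S_smul (c : ℝ) (m : ℕ) (F : (ℕ → Bool) → ℝ) : S m (c • F) = c * S m F := S_mul c m F

theorem S_one : ∀ m : ℕ, S m (fun _ : ℕ → Bool => (1 : ℝ)) = 2 ^ m
  | 0 => rfl
  | m + 1 => by
    have := S_mul (2 : ℝ) m fun _ : ℕ → Bool => (1 : ℝ)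
    rw [S_one m] at this
    rw [S, pow_succ', ← this]
    simp

theorem S_rep {l : List ℕ} {v : (ℕ → Bool) → ℝ} (h : T2.Rep 0 1 l v) :
    ∀ m, l.length = 2 * m → 2 ^ m * S (2 * m) v = 1 := by
  induction h with
  | base l h =>
    intro m hm
    obtain rfl : m = 0 := by omega
    simp [S]
  | ins a b x v _ _ ih =>
    intro m hm
    simp only [List.length_append, List.length_cons] at hm ih
    obtain ⟨m, rfl⟩ : ∃ k, m = k + 1 := ⟨m - 1, by omega⟩
    rw [show 2 * (m + 1) = 2 * m + 2 by ring, S_ins2 _ a.length _ (by omega), ← ih m (by omega),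
      pow_succ, mul_assoc, ← S_mul 2]
    congr 2
    funext y
    simp [T2, hTL, hcup_apply]
    ring

/-- squared norm -/
noncomputable def N2 (m : ℕ) (v : (ℕ → Bool) → ℝ) : ℝ := S m fun x => v x ^ 2

theorem N2_Y (E : ℕ → Module.End ℝ ((ℕ → Bool) → ℝ)) (m : ℕ) : ∀ (w : List ℕ) (v),
    (∀ i ∈ w, ∃ k, k + 2 ≤ m ∧ E i = ee T2 k) → N2 m (Y E (1 / 5) w ∅ v) ≤ N2 m v
  | [], v, _ => by simp [Y]
  | i :: w, v, h => by
    obtain ⟨k, hk, e⟩ := h i List.mem_cons_self
    have e1 : Y E (1 / 5) (i :: w) ∅ v = Y E (1 / 5) w ∅ (v + (1 / 5 : ℝ) • ee T2 k v) := by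
      simp [Y, e]
    rw [e1]
    refine (N2_Y E m w _ fun j hj => h j (List.mem_cons_of_mem _ hj)).trans ?_
    obtain ⟨m, rfl⟩ : ∃ j, m = j + 2 := ⟨m - 2, by omega⟩
    rw [N2, N2, S_ins2 m k _ (by omega), S_ins2 m k _ (by omega)]
    refine S_mono m fun x => ?_
    simp [ee, T2, hTL, hcup_apply, hcap_apply]
    generalize v (ins2 k true false x) = p
    generalize v (ins2 k false true x) = q
    nlinarith [sq_nonneg (2 * p - q)]

theorem N2_init : ∀ m, N2 (2 * m) (Cp T2 0 m 1) ≤ 4 ^ m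
  | 0 => by simp [N2, S, Cp]
  | m + 1 => by
    rw [pow_succ']
    refine le_trans ?_ (mul_le_mul_of_nonneg_left (N2_init m) (by norm_num))
    rw [N2, N2, show 2 * (m + 1) = 2 * m + 2 by ring, S_ins2 _ m _ (by omega), ← S_mul]
    refine S_mono _ fun x => ?_
    simp only [Cp, zero_add, Module.End.mul_apply]
    generalize Cp T2 0 m 1 = u
    simp [T2, hTL, hcup_apply]
    nlinarith [sq_nonneg (u x)]

theorem S_le (m : ℕ) (v : (ℕ → Bool) → ℝ) (h : N2 (2 * m) v ≤ 4 ^ m) : S (2 * m) v ≤ 4 ^ m := by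
  have h1 : S (2 * m) ((2 : ℝ) • v) ≤ S (2 * m) ((fun x => v x ^ 2) + fun _ => 1) :=
    S_mono _ fun x => by simp; nlinarith [sq_nonneg (v x - 1)]
  rw [S_add, S_one, S_smul, pow_mul] at h1
  norm_num at h1
  unfold N2 at h
  linarith

variable {M : Type} [AddCommGroup M] [Module ℂ M] {δ x : ℂ} {T : TL ℂ M δ} {v₀ : M}

theorem caps_rep (hδ : 1 ≤ ‖δ‖) : ∀ (m : ℕ) {l : List ℕ} {v : M}, T.Rep 0 v₀ l v →
    l.length = 2 * m → ∃ y : ℂ, Ca T 0 m v = y • v₀ ∧ ‖y‖ ≤ ‖δ‖ ^ m
  | 0, l, v, h, hl => ⟨1, by simp [Ca, (h.len.resolve_right (by omega)).2], by simp⟩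
  | m + 1, l, v, h, hl => by
    obtain ⟨v', h1, h2⟩ := h.cap' (by omega) (i := m) (by omega)
    obtain ⟨y, h3, h4⟩ := caps_rep hδ m h1 (by have := length_join (i := m) (l := l) (by omega); omega)
    refine ⟨_, by rw [Ca, zero_add, Module.End.mul_apply, h2, map_smul, h3, smul_smul], ?_⟩
    rw [norm_mul, pow_succ']
    refine mul_le_mul ?_ h4 (norm_nonneg _) (norm_nonneg _)
    split_ifs <;> simp [hδ]

theorem dom (hT : Far T) (hδ : 1 ≤ ‖δ‖) (h1 : ‖1 + x * δ‖ ≤ 1 / 2) (h2 : 5 * ‖x‖ ≤ 1) (j m : ℕ) :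
    ∀ (w : List ℕ) (K : Finset ℕ) (l : List ℕ) (v : M) (u : (ℕ → Bool) → ℝ), T.Rep 0 v₀ l v →
    T2.Rep 0 1 l u → l.length = 2 * m → (∀ i ∈ w, j ≤ i ∧ i - j + 2 ≤ m) →
    (∀ i ∈ K, j ≤ i ∧ Sp m (i - j) l) → ∃ y : ℂ, Ca T 0 m (Y (fun i => ee T (i - j)) x w K v) = y • v₀ ∧
      ‖y‖ ≤ ‖δ‖ ^ m * 2 ^ m * (5 * ‖x‖) ^ #K *
        S (2 * m) (Y (fun i => ee T2 (i - j)) (1 / 5) w ∅ u) ∧
      0 ≤ S (2 * m) (Y (fun i => ee T2 (i - j)) (1 / 5) w ∅ u)
  | [], K, l, v, u, r1, r2, hl, _, _ => by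
    have e := S_rep r2 m hl
    have e0 : 0 ≤ S (2 * m) u := (pos_of_mul_pos_right (e ▸ one_pos) (by positivity)).le
    simp only [Y, if_true, Module.End.one_apply]
    split_ifs with h
    · obtain ⟨y, a1, a2⟩ := caps_rep hδ m r1 hl
      exact ⟨y, a1, by rwa [h, card_empty, pow_zero, mul_one, mul_assoc, e, mul_one], e0⟩
    · refine ⟨0, by simp, ?_, e0⟩
      rw [mul_right_comm, mul_assoc (‖δ‖ ^ m), e, norm_zero]
      positivity
  | i :: w, K, l, v, u, r1, r2, hl, hw, hK => by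
    have hw' : ∀ k ∈ w, j ≤ k ∧ k - j + 2 ≤ m := fun k hk => hw k (List.mem_cons_of_mem _ hk)
    obtain ⟨i1, i2⟩ := hw i List.mem_cons_self
    obtain ⟨a, p, q, b, rfl, ha⟩ := split2 (l := l) (i := i - j) (by omega)
    obtain ⟨y, a1, a2, a3⟩ := dom hT hδ h1 h2 j m w K _ v u r1 r2 hl hw' hK
    simp only [Y, erase_empty, LinearMap.add_apply, LinearMap.smul_apply, Module.End.mul_apply,
      ← ha, map_add, map_smul]
    by_cases e : p = q
    · subst e
      have : i ∉ K := fun k => by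
        obtain ⟨χ, hχ⟩ := (hK i k).2
        exact (Sp.val (by omega) hχ).1 rfl ha
      rw [erase_eq_of_notMem this, rep_eq hT r1, rep_eq far_T2 r2, map_smul, map_smul, map_smul, a1,
        S_add, S_smul, S_smul]
      refine ⟨(1 + x * δ) * y, by simp [add_mul, add_smul, mul_smul], ?_, by linarith⟩
      rw [norm_mul]
      nlinarith [norm_nonneg y]
    · have hf := fresh_not_mem (a.map (ren p q) ++ b.map (ren p q))
      obtain ⟨y', b1, b2, b3⟩ := dom hT hδ h1 h2 j m w (K.erase i) _ _ _ (rep_ne r1 e hf)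
        (rep_ne r2 e hf) (by simpa using hl) hw' fun k hk => ⟨(hK k (mem_of_mem_erase hk)).1,
          (hK k (mem_of_mem_erase hk)).2.step (by omega) (by
            have := ne_of_mem_erase hk
            have := (hK k (mem_of_mem_erase hk)).1
            omega) hf⟩
      rw [a1, b1, S_add, S_smul]
      refine ⟨y + x * y', by simp [add_smul, mul_smul], (norm_add_le _ _).trans ?_, by linarith⟩
      rw [mul_add]
      refine add_le_add a2 ?_
      have c1 : (5 * ‖x‖) ^ (#(K.erase i) + 1) ≤ (5 * ‖x‖) ^ #K :=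
        pow_le_pow_of_le_one (by positivity) h2 (by have := pred_card_le_card_erase (s := K) (a := i); omega)
      set Z := S (2 * m) (Y (fun i => ee T2 (i - j)) (1 / 5) w ∅ (ee T2 a.length u))
      rw [norm_mul]
      calc _ ≤ ‖x‖ * (‖δ‖ ^ m * 2 ^ m * (5 * ‖x‖) ^ #(K.erase i) * Z) := by gcongr
        _ = ‖δ‖ ^ m * 2 ^ m * (5 * ‖x‖) ^ (#(K.erase i) + 1) * (1 / 5 * Z) := by ring
        _ ≤ _ := by gcongr

end Pool.Agent.P.MP_833722_gt.Pos
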