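import Pool.Agent.P.MP_833722_gt.Pos.Rec

/-! A uniform zero-free disc bounds all coefficients. -/

set_option autoImplicit false

namespace Pool.Agent.P.MP_833722_gt.Pos

open Finset LaurentPolynomial Filter Topology

theorem low (G : ℂ → ℂ) (hG : Continuous G) (e : ℤ) (b : ℕ)
    (h : ∀ u : ℂ, u ≠ 0 → ‖u‖ ≤ 1 / 100 → (1 - 1280 * ‖u‖ ^ 2) ^ b ≤ ‖u‖ ^ e * ‖G u‖ ∧
      ‖u‖ ^ e * ‖G u‖ ≤ (1 + 1280 * ‖u‖ ^ 2) ^ b) : ‖G 0‖ ≤ 1 := by
  have ev : ∀ᶠ u : ℂ in 𝓝[≠] 0, u ≠ 0 ∧ ‖u‖ ≤ 1 / 100 := eventually_mem_nhdsWithin.and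
    (((continuous_norm.tendsto (0 : ℂ)).eventually_le_const (by norm_num)).filter_mono
      nhdsWithin_le_nhds)
  have t : ∀ F : ℂ → ℝ, Continuous F → Tendsto F (𝓝[≠] 0) (𝓝 (F 0)) := fun F hF =>
    (hF.tendsto 0).mono_left nhdsWithin_le_nhds
  rcases le_or_gt e 0 with he | he
  · have := le_of_tendsto_of_tendsto (t (fun u => ‖G u‖) (by fun_prop))
      (t (fun u => (1 + 1280 * ‖u‖ ^ 2) ^ b) (by fun_prop)) (ev.mono fun u hu =>
        (le_mul_of_one_le_left (norm_nonneg _) (one_le_zpow_of_nonpos₀ (norm_pos_iff.2 hu.1)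
          (by linarith [hu.2]) he)).trans (h u hu.1 hu.2).2)
    simpa using this
  · obtain ⟨k, rfl⟩ : ∃ k : ℕ, e = (k + 1 : ℕ) := ⟨(e - 1).toNat, by omega⟩
    have := le_of_tendsto_of_tendsto (t (fun u => (1 - 1280 * ‖u‖ ^ 2) ^ b) (by fun_prop))
      (t (fun u => ‖u‖ ^ (k + 1) * ‖G u‖) (by fun_prop)) (ev.mono fun u hu => (h u hu.1 hu.2).1)
    norm_num at this

theorem coef_bd (n : ℕ) : ∃ K : ℝ, ∀ f : ℤ[T;T⁻¹], SpanLe f n → ∀ (N : ℤ) (b : ℕ),
    (∀ a : ℂˣ, ‖(a : ℂ)‖ ≤ 1 / 100 → (1 - 1280 * ‖(a : ℂ)‖ ^ 2) ^ b ≤ ‖(a : ℂ)‖ ^ N * ‖evA a f‖ ∧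
      ‖(a : ℂ)‖ ^ N * ‖evA a f‖ ≤ (1 + 1280 * ‖(a : ℂ)‖ ^ 2) ^ b) →
    ∀ k, |(f.coeff k : ℝ)| ≤ K := by
  refine ⟨max 100 1 ^ (4 * n) * (4 * n).choose (4 * n / 2), fun f hf N b h k => ?_⟩
  by_cases hk : f.coeff k = 0
  · rw [hk, Int.cast_zero, abs_zero]; positivity
  have h0 : f.coeff.support.Nonempty := ⟨k, Finsupp.mem_support_iff.2 hk⟩
  obtain ⟨m, hm, hw⟩ : ∃ m : ℤ, f.coeff m ≠ 0 ∧ ∀ k, f.coeff k ≠ 0 → m ≤ k ∧ k ≤ m + 4 * n :=
    ⟨_, Finsupp.mem_support_iff.1 (min'_mem _ h0), fun k hk =>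
      ⟨min'_le _ _ (Finsupp.mem_support_iff.2 hk), by
        have := hf k _ hk (Finsupp.mem_support_iff.1 (min'_mem _ h0)); omega⟩⟩
  have e1 : ∀ a : ℂˣ, evA a f =
      (a : ℂ) ^ m * ∑ i ∈ range (4 * n + 1), (f.coeff (m + i) : ℂ) * (a : ℂ) ^ i := fun a => by
    rw [evA_eq_sum a _ (s := (range (4 * n + 1)).map
      ⟨fun i : ℕ => m + i, fun _ _ e => by simpa using e⟩) fun k hk => by
        have := hw k hk
        exact mem_map.2 ⟨(k - m).toNat, mem_range.2 (by omega),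
          by simp only [Function.Embedding.coeFn_mk]; omega⟩, sum_map, mul_sum]
    refine sum_congr rfl fun i _ => ?_
    simp only [Function.Embedding.coeFn_mk, zpow_add, zpow_natCast, Units.val_mul,
      Units.val_pow_eq_pow_val, Units.val_zpow_eq_zpow_val]
    ring
  have l1 := low (fun u => ∑ i ∈ range (4 * n + 1), (f.coeff (m + i) : ℂ) * u ^ i) (by fun_prop)
    (N + m) b fun u hu hu' => by
      have := h (Units.mk0 u hu) hu'
      rwa [e1, norm_mul, norm_zpow, ← mul_assoc, Units.val_mk0,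
        ← zpow_add₀ (norm_ne_zero_iff.2 hu)] at this
  rw [sum_eq_single 0 (fun i _ hi => by simp [hi]) (by simp)] at l1
  simp only [Nat.cast_zero, add_zero, pow_zero, mul_one] at l1
  have hc : (f.coeff m : ℂ) ≠ 0 := Int.cast_ne_zero.2 hm
  set p : Polynomial ℂ := ∑ i ∈ range (4 * n + 1),
    Polynomial.monomial (4 * n - i) ((f.coeff (m + i) : ℂ) / f.coeff m) with hp
  have c1 : ∀ i ≤ 4 * n, p.coeff (4 * n - i) = (f.coeff (m + i) : ℂ) / f.coeff m := fun i hi => by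
    rw [hp, Polynomial.finsetSum_coeff, sum_eq_single i (fun j hj e => by
      rw [Polynomial.coeff_monomial, if_neg (by have := mem_range.1 hj; omega)])
      (fun e => (e (mem_range.2 (by omega))).elim), Polynomial.coeff_monomial_same]
  have c2 : p.natDegree ≤ 4 * n := Polynomial.natDegree_sum_le_of_forall_le _ _ fun i _ =>
    (Polynomial.natDegree_monomial_le _).trans (by omega)
  have c3 := Polynomial.coeff_bdd_of_roots_le (B := 100) (RingHom.id ℂ)
    (Polynomial.monic_of_natDegree_le_of_coeff_eq_one _ c2 (by simpa [hc] using c1 0 (by omega)))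
    (IsAlgClosed.splits _) c2 (fun z hz => by
      rw [Polynomial.map_id] at hz
      by_contra hh
      push Not at hh
      have z0 : z ≠ 0 := norm_pos_iff.1 (by linarith)
      have a1 : ‖((Units.mk0 z z0)⁻¹ : ℂˣ).val‖ ≤ 1 / 100 := by
        simpa using inv_anti₀ (by norm_num) hh.le
      have a2 := (h _ a1).1
      have a3 : ∑ i ∈ range (4 * n + 1), (f.coeff (m + i) : ℂ) * z⁻¹ ^ i =
          f.coeff m * z⁻¹ ^ (4 * n) * p.eval z := by
        rw [hp, Polynomial.eval_finsetSum, mul_sum]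
        refine sum_congr rfl fun i hi => ?_
        obtain ⟨j, hj⟩ : ∃ j, 4 * n = i + j := ⟨4 * n - i, by have := mem_range.1 hi; omega⟩
        rw [Polynomial.eval_monomial, hj, Nat.add_sub_cancel_left, pow_add, inv_pow z j]
        field_simp
      rw [e1, Units.val_inv_eq_inv_val, Units.val_mk0, a3,
        (Polynomial.isRoot_of_mem_roots hz).eq_zero, mul_zero, mul_zero, norm_zero, mul_zero] at a2
      rw [Units.val_inv_eq_inv_val, Units.val_mk0] at a1
      exact a2.not_gt (pow_pos (by nlinarith [norm_nonneg z⁻¹]) _)) (4 * n - (k - m).toNat)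
  have := hw k hk
  rw [Polynomial.map_id, c1 _ (by omega), show m + ((k - m).toNat : ℤ) = k by omega, norm_div,
    div_le_iff₀ (norm_pos_iff.2 hc), Complex.norm_intCast] at c3
  exact c3.trans (mul_le_of_le_one_right (by positivity) l1)

theorem evA_invert (a : ℂˣ) (f : ℤ[T;T⁻¹]) : evA a (invert f) = evA a⁻¹ f := by
  induction f using LaurentPolynomial.induction_on' with
  | add p q hp hq => simp only [map_add, hp, hq]
  | C_mul_T n r => simp [evA]

theorem valid_cups (D : List Pc) : ∀ b, Valid (List.replicate b true ++ List.replicate b false) D →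
    Valid [] ((List.range b).map (Pc.cup · true) ++ D)
  | 0, h => h
  | b + 1, h => by
    rw [List.range_succ, List.map_append, List.append_assoc]
    refine valid_cups _ b ⟨by simp, ?_⟩
    have := ins_app (List.replicate b true) (List.replicate b false) true (!true)
    rw [List.length_replicate] at this
    rw [this]
    simpa [List.replicate_succ' (a := true), List.replicate_succ (a := false)] using h

theorem valid_caps : ∀ b,
    Valid (List.replicate b true ++ List.replicate b false) ((List.range b).reverse.map Pc.cap)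
  | 0 => rfl
  | b + 1 => by
    have e : List.replicate (b + 1) true ++ List.replicate (b + 1) false =
        List.replicate b true ++ true :: false :: List.replicate b false := by
      simp [List.replicate_succ' (a := true), List.replicate_succ (a := false)]
    have e0 := getD_app0 (List.replicate b true) (false :: List.replicate b false) true default
    have e1 := getD_app1 (List.replicate b true) (List.replicate b false) true false default
    have e2 := del_app (List.replicate b true) (List.replicate b false) true false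
    rw [List.length_replicate] at e0 e1 e2
    rw [List.range_succ, List.reverse_append, e]
    exact ⟨by simp, by rw [e0, e1]; simp, by rw [e2]; exact valid_caps b⟩

theorem valid_word (b : ℕ) (s : Bool) (D : List Pc)
    (h : Valid (List.replicate b true ++ List.replicate b false) D) : ∀ w : List ℕ,
    (∀ i ∈ w, i + 2 ≤ b) →
    Valid (List.replicate b true ++ List.replicate b false) (w.map (Pc.cr · s) ++ D)
  | [], _ => h
  | i :: w, hw => by
    have a := valid_word b s D h w fun j hj => hw j (List.mem_cons_of_mem _ hj)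
    obtain ⟨j, rfl⟩ : ∃ j, b = i + (j + 2) := ⟨b - i - 2, by have := hw i List.mem_cons_self; omega⟩
    refine ⟨by simp; omega, ?_⟩
    have e := swp_app (List.replicate i true)
      (List.replicate j true ++ List.replicate (i + (j + 2)) false) true true
    rw [List.length_replicate] at e
    rw [List.replicate_add, List.append_assoc] at a ⊢
    exact e.symm ▸ a

theorem eval_bd (b : ℕ) (w : List ℕ) (s : Bool) (hw : ∀ i ∈ w, i + 2 ≤ b + 1) {D : List Pc}
    (hD : D = (List.range (b + 1)).map (Pc.cup · true) ++ w.map (Pc.cr · s) ++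
      (List.range (b + 1)).reverse.map Pc.cap) (hV : Valid [] D) : ∃ N : ℤ, ∀ u : ℂˣ,
    ‖(u : ℂ)‖ ≤ 1 / 100 → (1 - 1280 * ‖(u : ℂ)‖ ^ 2) ^ (2 * b + 1) ≤
      ‖(u : ℂ)‖ ^ N * ‖evA (if s then u⁻¹ else u) (jones D)‖ ∧
      ‖(u : ℂ)‖ ^ N * ‖evA (if s then u⁻¹ else u) (jones D)‖ ≤
        (1 + 1280 * ‖(u : ℂ)‖ ^ 2) ^ (2 * b + 1) := by
  refine ⟨2 * b + w.length + (if s then -3 else 3) * writhe [] D, fun u hu => ?_⟩
  set a := if s then u⁻¹ else u with ha
  have u0 : (u : ℂ) ≠ 0 := u.ne_zero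
  have n0 := norm_pos_iff.2 u0
  have e1 := evA_mul_bracket a hV.ok (by simp [hD])
  have e2 := TL.ev_nil (vT a) a ↑a⁻¹ hV.ok 1
  generalize hδ : -(a : ℂ) ^ 2 - (↑a⁻¹ : ℂ) ^ 2 = δ at e1
  have e3 : (u : ℂ) ^ 2 * δ = -1 - (u ^ 2) ^ 2 := by
    rw [← hδ, ha]
    cases s <;> simp <;> field_simp <;> ring
  have e4 : |‖(u : ℂ)‖ ^ 2 * ‖δ‖ - 1| ≤ (‖(u : ℂ)‖ ^ 2) ^ 2 := by
    have := abs_norm_sub_norm_le ((u : ℂ) ^ 2 * δ) (-1)
    rwa [norm_mul, norm_neg, norm_one, e3, sub_sub_cancel_left, norm_neg, norm_pow, norm_pow,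
      norm_pow] at this
  have t0 : 0 < ‖(u : ℂ)‖ ^ 2 := by positivity
  have t1 : ‖(u : ℂ)‖ ^ 2 ≤ 1 / 10000 := by nlinarith
  rw [abs_le] at e4
  have d1 : 1 ≤ ‖δ‖ := by nlinarith [e4.1]
  have bd := bounds (T := vT a) (x := (u : ℂ) ^ 2)
    (LinearMap.proj (R := ℂ) (φ := fun _ : ℕ → Bool => ℂ) default)
    1 (far_const _ _ _ _ _ _ : Far (vT a)) (hδ ▸ d1)
    (by rw [hδ, e3, add_sub_assoc', add_neg_cancel, zero_sub, norm_neg, norm_pow, norm_pow]
        nlinarith) (by rw [norm_pow]; linarith) w (b + 1)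
  rw [List.filter_eq_self.2 fun i hi => decide_eq_true (hw i hi), congrArg norm hδ, norm_pow] at bd
  rw [hD, TL.ev_append, TL.ev_append, ev_cups, ev_word ((u : ℂ) ^ 2) _ _ _ (u : ℂ)⁻¹ s
    (by cases s <;> simp [ha]) (by cases s <;> simp [ha] <;> field_simp), ev_caps, map_smul, ← hD,
    show U _ _ _ _ _ = _ from hδ ▸ e1.symm] at e2
  have e5 := congrArg norm (congrFun e2 default)
  simp only [Pi.smul_apply, smul_eq_mul, Pi.one_apply, mul_one, norm_mul, norm_pow, norm_inv,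
    hδ] at e5
  have d0 : 0 < ‖δ‖ := by linarith
  simp only [LinearMap.proj_apply, Pi.one_apply, norm_one, mul_one, Φ] at bd
  generalize ‖(Ca (vT a) 0 (b + 1) _) default‖ = Z at e5 bd
  have e6 : ‖(u : ℂ)‖ ^ (2 * b + w.length + (if s then -3 else 3) * writhe [] D : ℤ) *
      ‖evA a (jones D)‖ = (‖(u : ℂ)‖ ^ 2) ^ b * (Z / ‖δ‖) := by
    have : ‖(a ^ (-3 * writhe [] D)).val‖ =
        (‖(u : ℂ)‖ ^ ((if s then -3 else 3) * writhe [] D : ℤ))⁻¹ := by
      cases s <;> simp [ha]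
    rw [evA_jones, norm_mul, norm_mul, this, zpow_add₀ n0.ne', zpow_add₀ n0.ne', ← pow_mul,
      eq_div_of_mul_eq d0.ne' ((mul_comm _ _).trans e5.symm)]
    have := zpow_pos n0 ((if s then -3 else 3) * writhe [] D : ℤ)
    generalize ‖(u : ℂ)‖ ^ ((if s then -3 else 3) * writhe [] D : ℤ) = q at this
    norm_cast
    simp
    field_simp
  rw [e6]
  have η : 0 ≤ 1 - 1280 * ‖(u : ℂ)‖ ^ 2 := by linarith
  constructor
  · calc _ = (1 - 1280 * ‖(u : ℂ)‖ ^ 2) ^ b * (1 - 1280 * ‖(u : ℂ)‖ ^ 2) ^ (b + 1) := by ring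
      _ ≤ (‖(u : ℂ)‖ ^ 2 * ‖δ‖) ^ b * (1 - 1280 * ‖(u : ℂ)‖ ^ 2) ^ (b + 1) := by
        gcongr; nlinarith [e4.1]
      _ = (‖(u : ℂ)‖ ^ 2) ^ b * (((1 - 1280 * ‖(u : ℂ)‖ ^ 2) * ‖δ‖) ^ (b + 1) / ‖δ‖) := by
        simp only [mul_pow]; field_simp; ring
      _ ≤ _ := by gcongr; exact bd.1
  · calc _ ≤ (‖(u : ℂ)‖ ^ 2) ^ b * (((1 + 1280 * ‖(u : ℂ)‖ ^ 2) * ‖δ‖) ^ (b + 1) / ‖δ‖) := by
          gcongr; exact bd.2
      _ = (‖(u : ℂ)‖ ^ 2 * ‖δ‖) ^ b * (1 + 1280 * ‖(u : ℂ)‖ ^ 2) ^ (b + 1) := by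
        simp only [mul_pow]; field_simp; ring
      _ ≤ (1 + 1280 * ‖(u : ℂ)‖ ^ 2) ^ b * (1 + 1280 * ‖(u : ℂ)‖ ^ 2) ^ (b + 1) := by
        gcongr; nlinarith [e4.2]
      _ = _ := by ring

theorem main (n : ℕ) : ∃ K : ℝ, ∀ (b : ℕ) (w : List ℕ) (s : Bool) (D : List Pc), 0 < b →
    (∀ i ∈ w, i + 2 ≤ b) → D = (List.range b).map (Pc.cup · true) ++ w.map (Pc.cr · s) ++
      (List.range b).reverse.map Pc.cap → Valid [] D ∧ (SpanLe (jones D) n →
        ∀ k, |((jones D).coeff k : ℝ)| ≤ K) := by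
  obtain ⟨K, hK⟩ := coef_bd n
  refine ⟨K, fun b w s D hb hw hD => ?_⟩
  have hV : Valid [] D := by
    rw [hD, List.append_assoc]
    exact valid_cups _ b (valid_word b s _ (valid_caps b) w hw)
  obtain ⟨b, rfl⟩ : ∃ k, b = k + 1 := ⟨b - 1, by omega⟩
  obtain ⟨N, h⟩ := eval_bd b w s hw hD hV
  refine ⟨hV, fun hn k => ?_⟩
  cases s
  · exact hK _ hn N _ h k
  · simpa using hK (invert (jones D)) (fun i j hi hj => by
      have := hn (-j) (-i) (by simpa using hj) (by simpa using hi)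
      omega) N _ (fun a ha => by rw [evA_invert]; exact h a ha) (-k)

end Pool.Agent.P.MP_833722_gt.Pos
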