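import Pool.Agent.P.MP_833722_gt.Pos.Dom

/-! The ratio of consecutive closures stays close to the loop value. -/

set_option autoImplicit false

namespace Pool.Agent.P.MP_833722_gt.Pos

open Finset

variable {M : Type} [AddCommGroup M] [Module ℂ M] {δ : ℂ} (T : TL ℂ M δ) (x : ℂ) (φ : M →ₗ[ℂ] ℂ)
  (v₀ : M)

/-- value of the closure on `k` strands -/
noncomputable def Φ (k : ℕ) (w : List ℕ) (K : Finset ℕ) : ℂ :=
  φ (Ca T 0 k (Y (ee T) x w K (Cp T 0 k v₀)))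

variable {T x}

theorem Φ_succ (hT : Far T) (j : ℕ) (w : List ℕ) (hw : ∀ i ∈ w, i + 2 ≤ j) :
    Φ T x φ v₀ (j + 1) w ∅ = δ * Φ T x φ v₀ j w ∅ := by
  have e := Y_comm (ee T) x (F := T.cap j) w ∅ fun i hi => hT.cap (hw i hi)
  have e1 := LinearMap.congr_fun e (T.cup j (Cp T 0 j v₀))
  simp only [Module.End.mul_apply, T.loop, map_smul] at e1
  simp only [Φ, Ca, Cp, zero_add, Module.End.mul_apply, e1, map_smul, smul_eq_mul]

variable (hT : Far T) (hδ : 1 ≤ ‖δ‖) (h1 : ‖1 + x * δ‖ ≤ 1 / 2) (h2 : 1280 * ‖x‖ ≤ 1 / 2)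
include hT hδ h1 h2

theorem poly (j m : ℕ) (w : List ℕ) (K : Finset ℕ) (hK : ∀ i ∈ K, j ≤ i)
    (hw : ∀ i ∈ w, (i + 2 ≤ j ∨ j ≤ i) ∧ i + 2 ≤ j + m) : ‖Φ T x φ v₀ (j + m) w K‖ ≤
      (8 * ‖δ‖) ^ m * (5 * ‖x‖) ^ #K * ‖Φ T x φ v₀ j (w.filter (· < j)) ∅‖ := by
  have hw' : ∀ i ∈ w.filter (j ≤ ·), j ≤ i ∧ i - j + 2 ≤ m := fun i hi => by
    have a := List.mem_filter.1 hi
    have := (hw i a.1).2
    have := of_decide_eq_true a.2
    omega
  obtain ⟨y, a1, a2, -⟩ := dom (hT.sh j) hδ h1 (by linarith) j m (w.filter (j ≤ ·)) K _ _ _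
    (rep_init (sh T j) (Cp T 0 j v₀) m) (rep_init T2 1 m) (by simp; ring) hw'
    fun i hi => ⟨hK i hi, sp_init _ _⟩
  have a3 := S_le m _ ((N2_Y (fun i => ee T2 (i - j)) (2 * m) (w.filter (j ≤ ·)) _ fun i hi =>
    ⟨_, by have := (hw' i hi).2; omega, rfl⟩).trans (N2_init m))
  rw [Y_congr (E' := ee T) x _ K fun i hi => by
    simp only [ee, sh, Nat.add_sub_cancel' (hw' i hi).1], Ca_sh, Cp_sh] at a1
  have e := Y_comm (ee T) x (F := Ca T j m) (w.filter (· < j)) ∅ fun i hi => hT.ca (by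
    have a := List.mem_filter.1 hi
    have := (hw i a.1).1
    have := of_decide_eq_true a.2
    omega) m
  have e1 := fun v => LinearMap.congr_fun e v
  simp only [Module.End.mul_apply] at e1
  rw [Φ, Φ, Y_split (ee T) x hT.ee j w K hK fun i hi => (hw i hi).1, Cp_add, Ca_add]
  simp only [Module.End.mul_apply, e1, a1, map_smul, smul_eq_mul, norm_mul]
  refine mul_le_mul_of_nonneg_right (a2.trans ?_) (norm_nonneg _)
  calc _ ≤ ‖δ‖ ^ m * 2 ^ m * (5 * ‖x‖) ^ #K * 4 ^ m := by gcongr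
    _ = _ := by rw [mul_pow 8, show (8 : ℝ) = 2 * 4 by norm_num, mul_pow 2]; ring

theorem tail (k : ℕ) (w : List ℕ) (hw : ∀ i ∈ w, i + 2 ≤ k + 1) (Z : ℝ)
    (H : ∀ j d, j + d = k → ‖δ‖ ^ d * ‖Φ T x φ v₀ j (w.filter (· + 2 ≤ j)) ∅‖ ≤ 2 ^ d * Z) :
    ∀ j d, j + d = k → ‖Φ T x φ v₀ (k + 1) w (Ico j k)‖ ≤ 16 * ‖δ‖ * (80 * ‖x‖) ^ d * Z := by
  have P : ∀ j d (w' : List ℕ), j + d = k → (∀ i ∈ w', i ∈ w ∧ i + 1 ≠ j) →
      w'.filter (· < j) = w.filter (· + 2 ≤ j) →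
      ‖Φ T x φ v₀ (k + 1) w' (Ico j k)‖ ≤ 8 * ‖δ‖ * (80 * ‖x‖) ^ d * Z := fun j d w' e a b => by
    have p := poly φ v₀ hT hδ h1 h2 j (d + 1) w' (Ico j k) (fun i hi => (mem_Ico.1 hi).1)
      fun i hi => by have := a i hi; have := hw i this.1; omega
    rw [← add_assoc, e, b, Nat.card_Ico, show k - j = d by omega] at p
    calc _ ≤ _ := p
      _ = 8 * ‖δ‖ * (40 * ‖x‖) ^ d * (‖δ‖ ^ d * ‖Φ T x φ v₀ j (w.filter (· + 2 ≤ j)) ∅‖) := by
        rw [show (40 : ℝ) = 8 * 5 by norm_num]; simp only [mul_pow]; ring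
      _ ≤ 8 * ‖δ‖ * (40 * ‖x‖) ^ d * (2 ^ d * Z) :=
        mul_le_mul_of_nonneg_left (H j d e) (by positivity)
      _ = _ := by rw [show (80 : ℝ) = 40 * 2 by norm_num]; simp only [mul_pow]; ring
  have hZ : 0 ≤ Z := by simpa using (by positivity : (0 : ℝ) ≤ _).trans (H k 0 rfl)
  intro j
  induction j with
  | zero =>
    intro d e
    refine (P 0 d w e (fun i hi => ⟨hi, by omega⟩) (by simp)).trans ?_
    gcongr
    norm_num
  | succ j ih =>
    intro d e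
    have p := P (j + 1) d (w.filter (· ≠ j)) e
      (fun i hi => by simpa using List.mem_filter.1 hi) (by
        rw [List.filter_filter]
        exact List.filter_congr fun i _ => by rw [Bool.eq_iff_iff]; simp; omega)
    have q := ih (d + 1) (by omega)
    rw [← insert_Ico_add_one_left_eq_Ico (show j < k by omega)] at q
    rw [Φ, Y_tele _ _ j w _ (by simp), LinearMap.add_apply, map_add, map_add]
    refine (norm_add_le _ _).trans ((add_le_add q p).trans ?_)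
    have : 0 ≤ ‖δ‖ * (80 * ‖x‖) ^ d * Z := by positivity
    rw [pow_succ]
    nlinarith

theorem ratio (w : List ℕ) (k : ℕ) : ‖Φ T x φ v₀ (k + 1) (w.filter (· + 2 ≤ k + 1)) ∅ -
    δ * Φ T x φ v₀ k (w.filter (· + 2 ≤ k)) ∅‖ ≤
      1280 * ‖x‖ * (‖δ‖ * ‖Φ T x φ v₀ k (w.filter (· + 2 ≤ k)) ∅‖) := by
  induction k using Nat.strong_induction_on with
  | _ k ih =>
  have H : ∀ d j, j + d ≤ k → ‖δ‖ ^ d * ‖Φ T x φ v₀ j (w.filter (· + 2 ≤ j)) ∅‖ ≤
      2 ^ d * ‖Φ T x φ v₀ (j + d) (w.filter (· + 2 ≤ j + d)) ∅‖ := by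
    intro d
    induction d with
    | zero => simp
    | succ d ih' =>
      intro j e
      have a := ih' j (by omega)
      have b := ih (j + d) (by omega)
      have c := norm_sub_norm_le (δ * Φ T x φ v₀ (j + d) (w.filter (· + 2 ≤ j + d)) ∅)
        (Φ T x φ v₀ (j + d + 1) (w.filter (· + 2 ≤ j + d + 1)) ∅)
      rw [norm_sub_rev, norm_mul] at c
      have f : 0 ≤ ‖δ‖ * ‖Φ T x φ v₀ (j + d) (w.filter (· + 2 ≤ j + d)) ∅‖ := by positivity
      calc _ = ‖δ‖ * (‖δ‖ ^ d * ‖Φ T x φ v₀ j (w.filter (· + 2 ≤ j)) ∅‖) := by ring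
        _ ≤ ‖δ‖ * (2 ^ d * ‖Φ T x φ v₀ (j + d) (w.filter (· + 2 ≤ j + d)) ∅‖) := by gcongr
        _ = 2 ^ d * (‖δ‖ * ‖Φ T x φ v₀ (j + d) (w.filter (· + 2 ≤ j + d)) ∅‖) := by ring
        _ ≤ 2 ^ d * (2 * ‖Φ T x φ v₀ (j + d + 1) (w.filter (· + 2 ≤ j + d + 1)) ∅‖) :=
          mul_le_mul_of_nonneg_left (by nlinarith) (by positivity)
        _ = _ := by rw [← add_assoc]; ring
  match k, H with
  | 0, _ =>
    rw [show w.filter (· + 2 ≤ 0 + 1) = w.filter (· + 2 ≤ 0) from List.filter_congr fun i _ => by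
      simp, Φ_succ φ v₀ hT 0 _ (by simp), sub_self, norm_zero]
    positivity
  | k + 1, H =>
    have q := tail φ v₀ hT hδ h1 h2 (k + 1) (w.filter (· + 2 ≤ k + 1 + 1))
      (fun i hi => of_decide_eq_true (List.mem_filter.1 hi).2) _ (fun j d e => by
        rw [List.filter_filter, List.filter_congr (q := (· + 2 ≤ j)) fun i _ => by
          rw [Bool.eq_iff_iff]; simp; omega]
        exact (H d j e.le).trans_eq (by rw [e])) k 1 rfl
    rw [← insert_Ico_add_one_left_eq_Ico (show k < k + 1 by omega), Ico_self] at q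
    rw [← Φ_succ φ v₀ hT (k + 1) _ fun i hi => of_decide_eq_true (List.mem_filter.1 hi).2, Φ,
      Y_tele _ _ k _ ∅ (by simp), LinearMap.add_apply, map_add, map_add, List.filter_filter,
      List.filter_congr (p := fun a => decide (a ≠ k) && decide (a + 2 ≤ k + 1 + 1))
        (q := (· + 2 ≤ k + 1)) fun i _ => by rw [Bool.eq_iff_iff]; simp; omega]
    refine (congrArg _ (add_sub_cancel_right _ _)).trans_le (q.trans_eq ?_)
    ring

theorem bounds (w : List ℕ) : ∀ k : ℕ,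
    ((1 - 1280 * ‖x‖) * ‖δ‖) ^ k * ‖φ v₀‖ ≤ ‖Φ T x φ v₀ k (w.filter (· + 2 ≤ k)) ∅‖ ∧
      ‖Φ T x φ v₀ k (w.filter (· + 2 ≤ k)) ∅‖ ≤ ((1 + 1280 * ‖x‖) * ‖δ‖) ^ k * ‖φ v₀‖
  | 0 => by simp [Φ, Ca, Cp, Y]
  | k + 1 => by
    obtain ⟨a, b⟩ := bounds w k
    have c := ratio φ v₀ hT hδ h1 h2 w k
    have d := abs_le.1 ((abs_norm_sub_norm_le _ _).trans c)
    have : 0 ≤ 1 - 1280 * ‖x‖ := by linarith
    rw [norm_mul] at d
    rw [pow_succ', pow_succ', mul_assoc, mul_assoc (_ * _)]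
    constructor
    · refine le_trans (mul_le_mul_of_nonneg_left a (by positivity)) ?_
      linarith [d.1]
    · refine le_trans ?_ (mul_le_mul_of_nonneg_left b (by positivity))
      linarith [d.2]

end Pool.Agent.P.MP_833722_gt.Pos
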